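import Pool.Agent.helper78.HFN.Spec

/-!
# HFN: row UPB, the number of residual conditions of a curve with multiplicities
-/

set_option autoImplicit false

open Polynomial Module

namespace Pool.Agent.HFN

noncomputable section

theorem UPB_od_ne {f : AA} {z : ℂ × ℂ} (h : ev z f ≠ 0) : od f z = 0 := by
  unfold od
  rw [if_neg (fun h' : Db z f => h h'.1), if_neg h]

theorem UPB_od_eq {f : AA} {z : ℂ × ℂ} (h : ev z f = 0) : 1 ≤ od f z := by
  unfold od
  split_ifs <;> omega

theorem UPB_wt_mono {k k' : ℕ} (h : k ≤ k') : wt k ≤ wt k' := by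
  unfold wt
  split_ifs <;> omega

open Classical in
/-- The inequality at one point. -/
theorem UPB_pt (hODM : ODM_stmt) (E B : AA) (e : ℕ) (he : e ≤ 2) (z : ℂ × ℂ) :
    wt (2 - od (E ^ e * B) z) + cc e * (if ev z E = 0 then 1 else 0) ≤
      wt (2 - od B z) + 3 * (if ev z E = 0 ∧ ev z B = 0 then 1 else 0) := by
  rw [hODM]
  by_cases hE : ev z E = 0
  · rw [if_pos hE]
    have hm : wt (2 - min 2 (od (E ^ e) z + od B z)) ≤ wt (2 - od B z) := UPB_wt_mono (by omega)
    by_cases hB : ev z B = 0
    · rw [if_pos ⟨hE, hB⟩]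
      have h2 : cc e ≤ 3 := by
        unfold cc
        split_ifs <;> omega
      omega
    · rw [if_neg (fun h => hB h.2)]
      have hb : od B z = 0 := UPB_od_ne hB
      have h0 := UPB_od_eq hE
      rw [hb] at hm ⊢
      have h3 : wt (2 - 0) = 3 := rfl
      rw [h3] at hm ⊢
      interval_cases e
      · have h4 : cc 0 = 0 := rfl
        rw [h4]
        omega
      · have h4 : cc 1 = 2 := rfl
        rw [h4, pow_one]
        have h5 : wt (2 - min 2 (od E z + 0)) ≤ wt 1 := UPB_wt_mono (by omega)
        have h6 : wt 1 = 1 := rfl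
        omega
      · have h4 : cc 2 = 3 := rfl
        rw [h4, pow_two, hODM]
        have h5 : wt (2 - min 2 (min 2 (od E z + od E z) + 0)) ≤ wt 0 := UPB_wt_mono (by omega)
        have h6 : wt 0 = 0 := rfl
        omega
  · rw [if_neg hE, if_neg (fun h => hE h.1)]
    have h1 : od (E ^ e) z = 0 := by
      apply UPB_od_ne
      rw [ev_pow]
      exact pow_ne_zero _ hE
    rw [h1]
    have h2 : wt (2 - min 2 (0 + od B z)) ≤ wt (2 - od B z) := UPB_wt_mono (by omega)
    omega

open Classical in
/-- Points of `Z` on `E` and on a member of `L`. -/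
theorem UPB_cnt (hBZT : BZT_stmt) (Z : Finset (ℂ × ℂ)) (E : AA) (hE : Irreducible E)
    (L : List (AA × ℕ)) (hL : ∀ p ∈ L, Irreducible p.1 ∧ ¬ Associated E p.1) :
    (Z.filter fun z => ev z E = 0 ∧ ∃ p ∈ L, ev z p.1 = 0).card ≤
      (L.map fun p => dX E * dY p.1 + dX p.1 * dY E).sum := by
  induction L with
  | nil =>
    simp
  | cons q L ih =>
    have ih' := ih fun p hp => hL p (List.mem_cons_of_mem _ hp)
    obtain ⟨hq1, hq2⟩ := hL q List.mem_cons_self
    rw [List.map_cons, List.sum_cons]
    have h1 : (Z.filter fun z => ev z E = 0 ∧ ∃ p ∈ q :: L, ev z p.1 = 0) ⊆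
        (Z.filter fun z => ev z E = 0 ∧ ev z q.1 = 0) ∪
          (Z.filter fun z => ev z E = 0 ∧ ∃ p ∈ L, ev z p.1 = 0) := by
      intro z hz
      rw [Finset.mem_filter] at hz
      obtain ⟨hz1, hz2, p, hp, hpz⟩ := hz
      rw [Finset.mem_union, Finset.mem_filter, Finset.mem_filter]
      rcases List.mem_cons.mp hp with h | h
      · subst h
        exact Or.inl ⟨hz1, hz2, hpz⟩
      · exact Or.inr ⟨hz1, hz2, p, h, hpz⟩
    have hdiv : ¬ E ∣ q.1 := fun h => hq2 (hE.associated_of_dvd hq1 h)
    have h2 := hBZT E q.1 hE hdiv (dX q.1) (dY q.1) ⟨le_refl _, le_refl _⟩ ∅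
      (Z.filter fun z => ev z E = 0 ∧ ev z q.1 = 0) (Finset.disjoint_empty_left _)
      (fun z hz => absurd hz (Finset.notMem_empty z))
      (fun z hz => (Finset.mem_filter.mp hz).2)
    rw [Finset.card_empty, mul_zero, zero_add] at h2
    have h3 : ip (dX q.1) (dY q.1) E = dX E * dY q.1 + dX q.1 * dY E := by
      unfold ip
      ring
    rw [h3] at h2
    exact (Finset.card_le_card h1).trans ((Finset.card_union_le _ _).trans (add_le_add h2 ih'))

theorem UPB_fl_cons (q : AA × ℕ) (L : List (AA × ℕ)) :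
    (fl (q :: L)).prod = q.1 ^ q.2 * (fl L).prod := by
  unfold fl
  rw [List.flatMap_cons, List.prod_append, List.prod_replicate]

/-- A zero of the product is on a member of the list. -/
theorem UPB_zero (L : List (AA × ℕ)) (z : ℂ × ℂ) (h : ev z (fl L).prod = 0) :
    ∃ p ∈ L, ev z p.1 = 0 := by
  induction L with
  | nil =>
    unfold fl at h
    simp at h
  | cons q L ih =>
    rw [UPB_fl_cons, ev_mul, ev_pow] at h
    rcases mul_eq_zero.mp h with h | h
    · exact ⟨q, List.mem_cons_self, by_contra fun h0 => pow_ne_zero _ h0 h⟩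
    · obtain ⟨p, hp, hpz⟩ := ih h
      exact ⟨p, List.mem_cons_of_mem _ hp, hpz⟩

theorem UPB_sum (E : AA) (L : List (AA × ℕ)) :
    (L.map fun p => dX E * dY p.1 + dX p.1 * dY E).sum =
      dX E * (L.map fun p => dY p.1).sum + (L.map fun p => dX p.1).sum * dY E := by
  induction L with
  | nil => simp
  | cons q L ih =>
    simp only [List.map_cons, List.sum_cons]
    rw [ih]
    ring

theorem UPB (hODM : ODM_stmt) (hBZT : BZT_stmt) : UPB_stmt := by
  classical
  intro Z L
  induction L with
  | nil =>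
    intro _ _
    have h1 : (fl ([] : List (AA × ℕ))).prod = 1 := rfl
    rw [h1]
    have h2 : Wt Z (res two 1) = 3 * Z.card := by
      unfold Wt
      have h3 : ∀ z ∈ Z, wt (res two 1 z) = 3 := by
        intro z _
        have h4 : od 1 z = 0 := UPB_od_ne (by rw [ev_one]; exact one_ne_zero)
        change wt (2 - od 1 z) = 3
        rw [h4]
        rfl
      rw [Finset.sum_congr rfl h3, Finset.sum_const, smul_eq_mul, mul_comm]
    rw [h2]
    simp
  | cons q L ih =>
    intro hle hC
    obtain ⟨hC1, hC2⟩ := hC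
    rw [List.map_cons] at hC1 hC2
    rw [List.pairwise_cons] at hC2
    have hE : Irreducible q.1 := hC1 _ List.mem_cons_self
    have ih' := ih (fun p hp => hle p (List.mem_cons_of_mem _ hp))
      ⟨fun C hC => hC1 C (List.mem_cons_of_mem _ hC), hC2.2⟩
    have hcnt := UPB_cnt hBZT Z q.1 hE L fun p hp =>
      ⟨hC1 _ (List.mem_cons_of_mem _ (List.mem_map_of_mem hp)),
        hC2.1 _ (List.mem_map_of_mem hp)⟩
    rw [UPB_sum] at hcnt
    have hstep : Wt Z (res two (fl (q :: L)).prod) + cc q.2 * nn Z q.1 ≤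
        Wt Z (res two (fl L).prod) +
          3 * (Z.filter fun z => ev z q.1 = 0 ∧ ∃ p ∈ L, ev z p.1 = 0).card := by
      have h1 : (Z.filter fun z => ev z q.1 = 0 ∧ ev z (fl L).prod = 0).card ≤
          (Z.filter fun z => ev z q.1 = 0 ∧ ∃ p ∈ L, ev z p.1 = 0).card := by
        apply Finset.card_le_card
        intro z hz
        rw [Finset.mem_filter] at hz ⊢
        exact ⟨hz.1, hz.2.1, UPB_zero L z hz.2.2⟩
      have h2 : Wt Z (res two (fl (q :: L)).prod) + cc q.2 * nn Z q.1 ≤
          Wt Z (res two (fl L).prod) +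
            3 * (Z.filter fun z => ev z q.1 = 0 ∧ ev z (fl L).prod = 0).card := by
        unfold Wt nn
        rw [Finset.card_filter, Finset.card_filter, Finset.mul_sum, Finset.mul_sum,
          ← Finset.sum_add_distrib, ← Finset.sum_add_distrib]
        refine Finset.sum_le_sum fun z _ => ?_
        have h3 := UPB_pt hODM q.1 (fl L).prod q.2 (hle q List.mem_cons_self) z
        rw [← UPB_fl_cons] at h3
        exact h3
      omega
    simp only [List.map_cons, List.sum_cons]
    nlinarith

end

end Pool.Agent.HFN
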